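import Pool.Agent.Helper75.PZ.FinC
import Pool.Agent.Helper99.PZ.EKE
import Pool.Agent.Helper9.PZ.SPC
import Pool.Agent.Helper14.PZ.GFN
import Pool.Agent.Helper98.PZ.SQR
import Pool.Agent.Helper96.PZ.UNI
import Pool.Agent.Helper20.PZ.DFN
import Pool.Agent.Helper49.PZ.CDM

/-!
# Property (Z) with constants tending to one half: the exact condition for connectedness

A pair of points of a metric space has property (Z) with constant `e` if some third point `z` has
Gromov product at most `e` times the smaller of its distances to the two points. Property (Z) is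
the case that every pair has it with every constant `e > 0`.

Here every pair at distance `r` has the property with the constant `1/2 - h r`, for a fixed
monotone positive function `h`. Such complete spaces are always connected, and always path
connected, exactly if the sum of `2 ^ (-n) / h (2 ^ (-n))` converges.
-/

namespace Pool.Agent.Results.MP_acfd82_an.Connectedness

/-- The Gromov product of `x` and `y` at `z`. -/
noncomputable def gromov {M : Type} [MetricSpace M] (x y z : M) : ℝ :=
  (dist x z + dist y z - dist x y) / 2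

/-- The pair `x, y` has property (Z) with the constant `e`. -/
def ZPair {M : Type} [MetricSpace M] (e : ℝ) (x y : M) : Prop :=
  ∃ z : M, z ≠ x ∧ z ≠ y ∧ gromov x y z ≤ e * min (dist x z) (dist y z)

theorem result (h : ℝ → ℝ) (hm : Monotone h) (hp : ∀ r, 0 < r → 0 < h r)
    (hh : ∀ r, h r ≤ 1 / 2) :
    ((∀ (M : Type) [MetricSpace M] [CompleteSpace M],
        (∀ u v : M, u ≠ v → ZPair (1 / 2 - h (dist u v)) u v) →
        ∀ x y : M, ∃ γ : ℝ → M, Continuous γ ∧ γ 0 = x ∧ γ 1 = y) ↔
      Summable (fun n : ℕ => (1 / 2 : ℝ) ^ n / h ((1 / 2) ^ n))) ∧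
    ((∀ (M : Type) [MetricSpace M] [CompleteSpace M],
        (∀ u v : M, u ≠ v → ZPair (1 / 2 - h (dist u v)) u v) → PreconnectedSpace M) ↔
      Summable (fun n : ℕ => (1 / 2 : ℝ) ^ n / h ((1 / 2) ^ n))) := by
  exact Pool.Agent.Helper75.PZ.final_C (Pool.Agent.Helper9.PZ.spc Pool.Agent.Helper99.PZ.eke)
    (Pool.Agent.Helper98.PZ.sqr Pool.Agent.Helper14.PZ.gfn) Pool.Agent.Helper96.PZ.uni
    (Pool.Agent.Helper49.PZ.cdm Pool.Agent.Helper20.PZ.dfn) h hm hp hh

end Pool.Agent.Results.MP_acfd82_an.Connectedness
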