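import Pool.Agent.Helper75.PZ.FinB
import Pool.Agent.Helper99.PZ.EKE
import Pool.Agent.Helper14.PZ.SUP
import Pool.Agent.Helper83.PZ.NUM
import Pool.Agent.Helper35.PZ.SPL
import Pool.Agent.Helper35.PZ.TRJ
import Pool.Agent.Helper39.PZ.BIN
import Pool.Agent.Helper2.PZ.CAT
import Pool.Agent.Helper12.PZ.CTV
import Pool.Agent.Helper51.PZ.GAM
import Pool.Agent.Helper91.PZ.LIM
import Pool.Agent.Helper9.PZ.LEN
import Pool.Agent.Helper56.PZ.CHN
import Pool.Agent.Helper96.PZ.SEQ
import Pool.Agent.Helper82.PZ.PHI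
import Pool.Agent.Helper59.PZ.DMT

/-!
# Property (Z) with a modulus: the exact condition for curves of finite length

A pair of points of a metric space has property (Z) with constant `e` if some third point `z` has
Gromov product at most `e` times the smaller of its distances to the two points. Property (Z) is
the case that every pair has it with every constant `e > 0`.

Here every pair at distance `r` has the property with the constant `w r`, for a fixed monotone
modulus `w` with values in `[0, 1/2)`. In a complete space small distances are then almost the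
lengths of curves, with an explicit bound, if the sum of `w (2 ^ (-n))` converges, and this
condition is exact.
-/

namespace Pool.Agent.Results.MP_acfd82_an.DiniCurves

/-- The Gromov product of `x` and `y` at `z`. -/
noncomputable def gromov {M : Type} [MetricSpace M] (x y z : M) : ℝ :=
  (dist x z + dist y z - dist x y) / 2

/-- The pair `x, y` has property (Z) with the constant `e`. -/
def ZPair {M : Type} [MetricSpace M] (e : ℝ) (x y : M) : Prop :=
  ∃ z : M, z ≠ x ∧ z ≠ y ∧ gromov x y z ≤ e * min (dist x z) (dist y z)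

theorem result (w : ℝ → ℝ) (hw : Monotone w) (hw0 : ∀ r, 0 ≤ w r) (hw1 : ∀ r, w r < 1 / 2) :
    (∀ (M : Type) [MetricSpace M] [CompleteSpace M] (x y : M),
      (∀ u v : M, u ≠ v → dist u v ≤ dist x y → ZPair (w (dist u v)) u v) →
      w (dist x y) ≤ 1 / 8 → Summable (fun n : ℕ => w ((7 / 8) ^ n * dist x y)) →
      ∃ γ : ℝ → M, Continuous γ ∧ γ 0 = x ∧ γ 1 = y ∧ eVariationOn γ (Set.Icc 0 1)
        ≤ ENNReal.ofReal (dist x y * Real.exp (2 * ∑' n : ℕ, w ((7 / 8) ^ n * dist x y)))) ∧
    ((∀ (M : Type) [MetricSpace M] [CompleteSpace M],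
      (∀ u v : M, u ≠ v → ZPair (w (dist u v)) u v) → ∀ x y : M,
        ∃ γ : ℝ → M, Continuous γ ∧ γ 0 = x ∧ γ 1 = y ∧ eVariationOn γ (Set.Icc 0 1) ≠ ⊤) ↔
      Summable (fun n : ℕ => w ((1 / 2) ^ n))) := by
  have hSUP := Pool.Agent.Helper14.PZ.sup Pool.Agent.Helper99.PZ.eke
  have hSPL := Pool.Agent.Helper35.PZ.spl hSUP Pool.Agent.Helper83.PZ.num
  have hGAM := Pool.Agent.Helper51.PZ.gam Pool.Agent.Helper2.PZ.cat_thm
  have hLIM := Pool.Agent.Helper91.PZ.lim hGAM
  have hLEN := Pool.Agent.Helper9.PZ.len Pool.Agent.Helper12.PZ.ctv hGAM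
  exact Pool.Agent.Helper75.PZ.final_B hSPL (Pool.Agent.Helper39.PZ.bin hSUP) hLIM hLEN
    (Pool.Agent.Helper56.PZ.chn Pool.Agent.Helper35.PZ.trj) Pool.Agent.Helper96.PZ.seq
    (Pool.Agent.Helper59.PZ.dmt Pool.Agent.Helper82.PZ.phi) w hw hw0 hw1

end Pool.Agent.Results.MP_acfd82_an.DiniCurves
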