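import Pool.Agent.Helper75.PZ.FinA
import Pool.Agent.Helper99.PZ.EKE
import Pool.Agent.Helper14.PZ.SUP
import Pool.Agent.Helper83.PZ.NUM
import Pool.Agent.Helper35.PZ.SPL
import Pool.Agent.Helper2.PZ.CAT
import Pool.Agent.Helper51.PZ.GAM
import Pool.Agent.Helper91.PZ.LIM
import Pool.Agent.Helper74.PZ.SNW
import Pool.Agent.Helper16.PZ.PAD

/-!
# Property (Z) with one constant: the sharp Hoelder theorem

A pair of points of a metric space has property (Z) with constant `e` if some third point `z` has
Gromov product at most `e` times the smaller of its distances to the two points. Property (Z) is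
the case that every pair has it with every constant `e > 0`.

Here one constant `e < 1/2` is fixed. In a complete metric space all of whose pairs have the
property with this constant any two points are joined by a Hoelder curve with exponent
`1 + log_2 (1 - e)` and an explicit constant (which is `1` for `e = 0`), and this exponent is the
best possible one for every `e`; from `e = 1/2` on no Hoelder exponent works.
-/

namespace Pool.Agent.Results.MP_acfd82_an.SharpHolder

/-- The Gromov product of `x` and `y` at `z`. -/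
noncomputable def gromov {M : Type} [MetricSpace M] (x y z : M) : ℝ :=
  (dist x z + dist y z - dist x y) / 2

/-- The pair `x, y` has property (Z) with the constant `e`. -/
def ZPair {M : Type} [MetricSpace M] (e : ℝ) (x y : M) : Prop :=
  ∃ z : M, z ≠ x ∧ z ≠ y ∧ gromov x y z ≤ e * min (dist x z) (dist y z)

theorem result :
    (∀ (M : Type) [MetricSpace M] [CompleteSpace M] (e : ℝ) (x y : M), 0 ≤ e → e < 1 / 2 →
      (∀ u v : M, u ≠ v → dist u v ≤ dist x y → ZPair e u v) →
      ∃ γ : ℝ → M, γ 0 = x ∧ γ 1 = y ∧ ∀ u v : ℝ,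
        dist (γ u) (γ v) ≤ dist x y / ((1 - e) * (1 - 2 * e) * (1 + Real.logb 2 (1 - e)))
          * |u - v| ^ (1 + Real.logb 2 (1 - e))) ∧
    ∀ e s : ℝ, 0 ≤ e → 0 < s →
      ((∀ (M : Type) [MetricSpace M] [CompleteSpace M],
        (∀ u v : M, u ≠ v → ZPair e u v) → ∀ x y : M,
          ∃ (γ : ℝ → M) (C : ℝ), γ 0 = x ∧ γ 1 = y ∧
            ∀ u ∈ Set.Icc (0 : ℝ) 1, ∀ v ∈ Set.Icc (0 : ℝ) 1,
              dist (γ u) (γ v) ≤ C * |u - v| ^ s) ↔
        e < 1 / 2 ∧ s ≤ 1 + Real.logb 2 (1 - e)) := by
  have hSUP := Pool.Agent.Helper14.PZ.sup Pool.Agent.Helper99.PZ.eke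
  have hSPL := Pool.Agent.Helper35.PZ.spl hSUP Pool.Agent.Helper83.PZ.num
  have hLIM := Pool.Agent.Helper91.PZ.lim (Pool.Agent.Helper51.PZ.gam Pool.Agent.Helper2.PZ.cat_thm)
  exact Pool.Agent.Helper75.PZ.final_A hSPL hLIM Pool.Agent.Helper74.PZ.snw
    Pool.Agent.Helper16.PZ.pad

end Pool.Agent.Results.MP_acfd82_an.SharpHolder
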